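import Pool.Agent.TH841.SH.Loc
import Pool.Agent.W262.RK.Defs

/-!
# Coboundaries and the points of order two (for the modules RS_T4, RS_DV)
-/

set_option autoImplicit false

namespace Pool.Agent.L0h55.RZ

open WeierstrassCurve Pool.Agent.W262.RK
open Pool.Agent.W262.SH (QB Pt act IsCoc IsCob LocTriv shaCoc cob Sha)
open Pool.Agent.TH841.SH

open scoped Classical Pointwise

lemma locConst_apply (x : QB) : IsLocallyConstant (fun σ : QB ≃ₐ[ℚ] QB => σ x) := by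
  rw [IsLocallyConstant.iff_exists_open]
  intro σ
  have ho : IsOpen (MulAction.stabilizer (QB ≃ₐ[ℚ] QB) x : Set (QB ≃ₐ[ℚ] QB)) :=
    stabilizer_isOpen_of_isIntegral x
  refine ⟨σ • (MulAction.stabilizer (QB ≃ₐ[ℚ] QB) x : Set (QB ≃ₐ[ℚ] QB)), ho.smul σ, ?_, ?_⟩
  · exact ⟨1, (MulAction.stabilizer (QB ≃ₐ[ℚ] QB) x).one_mem, mul_one σ⟩
  · rintro τ ⟨ρ, hρ, rfl⟩
    have h1 : ρ x = x := hρ
    show (σ * ρ) x = σ x
    rw [AlgEquiv.mul_apply, h1]

lemma act_locConst (W : WeierstrassCurve ℚ) (P : Pt W QB) :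
    IsLocallyConstant (fun σ : QB ≃ₐ[ℚ] QB => act W σ.toAlgHom P) := by
  rw [IsLocallyConstant.iff_exists_open]
  intro σ
  rcases P with _ | ⟨x, y, hxy⟩
  · exact ⟨Set.univ, isOpen_univ, trivial, fun τ _ => rfl⟩
  · obtain ⟨U, hU, hσU, hUx⟩ := (IsLocallyConstant.iff_exists_open _).1 (locConst_apply x) σ
    obtain ⟨V, hV, hσV, hVy⟩ := (IsLocallyConstant.iff_exists_open _).1 (locConst_apply y) σ
    refine ⟨U ∩ V, hU.inter hV, ⟨hσU, hσV⟩, fun τ hτ => ?_⟩
    have e1 : τ.toAlgHom x = σ.toAlgHom x := hUx τ hτ.1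
    have e2 : τ.toAlgHom y = σ.toAlgHom y := hVy τ hτ.2
    rw [act_some, act_some]
    simp only [e1, e2]

/-- the coboundary of a point -/
noncomputable def cobOf (W : WeierstrassCurve ℚ) (Q : Pt W QB) : (QB ≃ₐ[ℚ] QB) → Pt W QB :=
  fun σ => act W σ.toAlgHom Q - Q

lemma cobOf_isCob (W : WeierstrassCurve ℚ) (Q : Pt W QB) : IsCob W (cobOf W Q) := ⟨Q, fun _ => rfl⟩

lemma cobOf_lc (W : WeierstrassCurve ℚ) (Q : Pt W QB) : IsLocallyConstant (cobOf W Q) :=
  (act_locConst W Q).comp (fun P => P - Q)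

lemma cobOf_locTriv (W : WeierstrassCurve ℚ) (Q : Pt W QB) (K : Type) [Field K] [Algebra ℚ K] :
    LocTriv W K (cobOf W Q) := by
  intro ι
  refine ⟨act W ι Q, fun τ σ h => ?_⟩
  show act W ι (act W σ.toAlgHom Q - Q) = _
  rw [map_sub, act_act, ← h, act_act]

lemma cobOf_evLoc (W : WeierstrassCurve ℚ) (Q : Pt W QB) : EvLoc W (cobOf W Q) :=
  ⟨fun _ _ => cobOf_locTriv W Q _, cobOf_locTriv W Q _⟩

lemma act_mul (W : WeierstrassCurve ℚ) (σ τ : QB ≃ₐ[ℚ] QB) (Q : Pt W QB) :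
    act W (σ * τ).toAlgHom Q = act W σ.toAlgHom (act W τ.toAlgHom Q) := by
  rw [act_act]
  rfl

lemma isR_EAB (m b : ℤ) : IsR (EAB m b) 0 (m : ℚ) (b : ℚ) where
  h1 := rfl
  h2 := by
    show -((m : ℚ) + b) = _
    ring
  h3 := rfl
  h4 := by
    show (m : ℚ) * b = _
    ring
  h6 := by
    show (0 : ℚ) = _
    ring

section

variable {W : WeierstrassCurve ℚ} {a b c : ℚ} (h : IsR W a b c)

include h

/-- the points of order two are fixed by the Galois group -/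
lemma act_tors (T : Pt W QB) (hT : T + T = 0) (σ : QB ≃ₐ[ℚ] QB) : act W σ.toAlgHom T = T := by
  have key : ∀ (e : ℚ) (hn : (W.baseChange QB).toAffine.Nonsingular (algebraMap ℚ QB e) 0),
      act W σ.toAlgHom (.some (algebraMap ℚ QB e) 0 hn) = .some (algebraMap ℚ QB e) 0 hn := by
    intro e hn
    rw [act_some]
    have e1 : σ.toAlgHom (algebraMap ℚ QB e) = algebraMap ℚ QB e := σ.toAlgHom.commutes e
    have e2 : σ.toAlgHom (0 : QB) = 0 := map_zero _
    simp only [e1, e2]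
  rcases (h.base QB).tors two_ne_zero hT with rfl | ⟨hn, rfl⟩ | ⟨hn, rfl⟩ | ⟨hn, rfl⟩
  · exact map_zero _
  · exact key a hn
  · exact key b hn
  · exact key c hn

/-- a cocycle with values in the points of order two, locally trivial everywhere -/
lemma mem_selHom {f : (QB ≃ₐ[ℚ] QB) → Pt W QB} (h1 : IsLocallyConstant f)
    (h2 : ∀ σ, f σ + f σ = 0) (h3 : ∀ σ τ, f (σ * τ) = f σ + act W σ.toAlgHom (f τ))
    (h4 : EvLoc W f) : f ∈ selHom W :=
  ⟨h1, h2, fun σ τ => by rw [h3, act_tors h (f τ) (h2 τ)], h4⟩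

omit h in
lemma cobOf_mul (Q : Pt W QB) (σ τ : QB ≃ₐ[ℚ] QB) :
    cobOf W Q (σ * τ) = cobOf W Q σ + act W σ.toAlgHom (cobOf W Q τ) := by
  show act W (σ * τ).toAlgHom Q - Q = (act W σ.toAlgHom Q - Q) +
    act W σ.toAlgHom (act W τ.toAlgHom Q - Q)
  rw [act_mul, map_sub]
  abel

lemma cobOf_mem_selHom (Q : Pt W QB) (hQ : (Q + Q) + (Q + Q) = 0) : cobOf W Q ∈ selHom W := by
  refine mem_selHom h (cobOf_lc W Q) (fun σ => ?_) (cobOf_mul Q) (cobOf_evLoc W Q)
  have h1 : cobOf W Q σ + cobOf W Q σ = act W σ.toAlgHom (Q + Q) - (Q + Q) := by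
    show (act W σ.toAlgHom Q - Q) + (act W σ.toAlgHom Q - Q) = _
    rw [map_add]
    abel
  rw [h1, act_tors h (Q + Q) hQ, sub_self]

/-- a point fixed by the Galois group whose double is the point of order two with abscissa `e` -/
lemma fixed_half (e : ℚ) (R : Pt W QB) (hR : ∀ σ : QB ≃ₐ[ℚ] QB, act W σ.toAlgHom R = R)
    (hn : (W.baseChange QB).toAffine.Nonsingular (algebraMap ℚ QB e) 0)
    (hRe : R + R = .some (algebraMap ℚ QB e) 0 hn) : IsSquare (e - a) := by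
  rcases R with _ | ⟨x, y, hxy⟩
  · exact absurd (hRe.symm.trans (add_zero _)) (Affine.Point.some_ne_zero _)
  · have hfix : ∀ σ : QB ≃ₐ[ℚ] QB, σ x = x ∧ σ y = y := by
      intro σ
      have h1 := hR σ
      rw [act_some, Affine.Point.some.injEq] at h1
      exact h1
    obtain ⟨x0, hx0⟩ := fix_mem (K := ℚ) x (fun σ => (hfix σ).1)
    obtain ⟨y0, hy0⟩ := fix_mem (K := ℚ) y (fun σ => (hfix σ).2)
    have hy : y ≠ 0 := by
      intro h0
      have h1 := ((h.base QB).add_self two_ne_zero hxy).2 h0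
      rw [h1] at hRe
      exact (Affine.Point.some_ne_zero _) hRe.symm
    obtain ⟨X, Y, hn', e1, e2⟩ := (h.base QB).dup two_ne_zero hxy hy
    rw [e1, Affine.Point.some.injEq] at hRe
    rw [hRe.1, ← hx0, ← hy0] at e2
    refine ⟨((x0 - a) ^ 2 - (a - b) * (a - c)) / (2 * y0), ?_⟩
    apply (algebraMap ℚ QB).injective
    rw [map_sub, e2, ← pow_two, map_pow, map_div₀, map_sub, map_pow, map_sub, map_mul, map_mul, map_sub,
      map_sub, map_ofNat]

end

end Pool.Agent.L0h55.RZ
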