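import Pool.Agent.L0h55.RZ.Cob

/-!
# A class killed by two is the class of a Selmer homomorphism
-/

set_option autoImplicit false

namespace Pool.Agent.L0h55.RZ

open WeierstrassCurve Pool.Agent.W262.RK
open Pool.Agent.W262.SH (QB Pt act IsCoc IsCob LocTriv shaCoc cob Sha)
open Pool.Agent.TH841.SH

open scoped Classical Pointwise

theorem dvgen (m b : ℤ) (hm : m ≠ 0) (hb : b ≠ 0) (hmb : m ≠ b) (f : (QB ≃ₐ[ℚ] QB) → Pt (EAB m b) QB)
    (hf : f ∈ shaCoc (EAB m b)) (hc : IsCob (EAB m b) (f + f)) :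
    ∃ h ∈ selHom (EAB m b), IsCob (EAB m b) (f - h) := by
  have h := isR_EAB m b
  have hab : (0 : ℚ) ≠ m := by exact_mod_cast hm.symm
  have hac : (0 : ℚ) ≠ b := by exact_mod_cast hb.symm
  have hbc : (m : ℚ) ≠ b := by exact_mod_cast hmb
  have hinj : Function.Injective (algebraMap ℚ QB) := (algebraMap ℚ QB).injective
  obtain ⟨⟨hf1, hf2⟩, hf3, hf4⟩ := hf
  obtain ⟨P, hP⟩ := hc
  obtain ⟨Q, hQ⟩ := (h.base QB).div two_ne_zero (hinj.ne hab) (hinj.ne hac) (hinj.ne hbc) P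
  refine ⟨f - cobOf (EAB m b) Q, ?_, ?_⟩
  · refine mem_selHom h (hf1.comp₂ (cobOf_lc _ Q) (fun a b => a - b)) (fun σ => ?_) (fun σ τ => ?_) ?_
    · have h1 : (f - cobOf (EAB m b) Q) σ + (f - cobOf (EAB m b) Q) σ = (f + f) σ -
          (act (EAB m b) σ.toAlgHom (Q + Q) - (Q + Q)) := by
        show (f σ - (act (EAB m b) σ.toAlgHom Q - Q)) + (f σ - (act (EAB m b) σ.toAlgHom Q - Q)) =
          (f σ + f σ) - _
        rw [map_add]
        abel
      rw [h1, hP, ← hQ, sub_self]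
    · show f (σ * τ) - cobOf (EAB m b) Q (σ * τ) = (f σ - cobOf (EAB m b) Q σ) +
        act (EAB m b) σ.toAlgHom (f τ - cobOf (EAB m b) Q τ)
      rw [hf2, cobOf_mul, map_sub]
      abel
    · have h2 : EvLoc (EAB m b) f := ⟨hf3, hf4⟩
      have h3 := h2.add (cobOf_evLoc (EAB m b) Q).neg
      rwa [← sub_eq_add_neg] at h3
  · rw [sub_sub_cancel]
    exact cobOf_isCob _ Q

end Pool.Agent.L0h55.RZ
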