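import Pool.Agent.L0h94.RZ.DefsS
import Pool.Agent.L0h55.RZ.DVcore

set_option autoImplicit false

namespace Pool.Agent.L0h55.RZ

open Pool.Agent.L0h94.RZ

/-- (S6) -/
theorem dv : S_DV := fun m b hm hb hmb f hf hc => dvgen m b hm hb hmb f hf hc

end Pool.Agent.L0h55.RZ
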