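import Pool.Agent.L0h55.RZ.Cob

/-!
# The four torsion points give four different Selmer homomorphisms
-/

set_option autoImplicit false

namespace Pool.Agent.L0h55.RZ

open WeierstrassCurve Pool.Agent.W262.RK
open Pool.Agent.W262.SH (QB Pt act IsCoc IsCob LocTriv shaCoc cob Sha)
open Pool.Agent.TH841.SH

open scoped Classical Pointwise

lemma not_sq_three (b : ℤ) (hb : b % 4 = 3) : ¬ IsSquare ((b : ℚ)) := by
  rintro h
  rw [Rat.isSquare_intCast_iff] at h
  obtain ⟨z, hz⟩ := h
  rcases Int.even_or_odd z with ⟨k, hk⟩ | ⟨k, hk⟩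
  · rw [hk] at hz
    have : b = 4 * (k * k) := by rw [hz]; ring
    omega
  · rw [hk] at hz
    have : b = 4 * (k * k + k) + 1 := by rw [hz]; ring
    omega

lemma not_sq_neg {q : ℚ} (hq : q < 0) : ¬ IsSquare q := by
  rintro ⟨z, hz⟩
  have := mul_self_nonneg z
  linarith

theorem t4gen (m b : ℤ) (hm : 0 < m) (hmb : m < b) (hb : b % 4 = 3) :
    ∃ g : Fin 4 → ((QB ≃ₐ[ℚ] QB) → Pt (EAB m b) QB), Function.Injective g ∧
      ∀ i, g i ∈ selHom (EAB m b) ∧ IsCob (EAB m b) (g i) := by
  have h := isR_EAB m b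
  have hm' : (0 : ℚ) < m := by exact_mod_cast hm
  have hmb' : (m : ℚ) < b := by exact_mod_cast hmb
  have hab : (0 : ℚ) ≠ m := hm'.ne
  have hac : (0 : ℚ) ≠ b := (hm'.trans hmb').ne
  have hbc : (m : ℚ) ≠ b := hmb'.ne
  have hinj : Function.Injective (algebraMap ℚ QB) := (algebraMap ℚ QB).injective
  have hB := h.base QB
  have hn : ∀ e : ℚ, (e = 0 ∨ e = m ∨ e = b) →
      ((EAB m b).baseChange QB).toAffine.Nonsingular (algebraMap ℚ QB e) 0 := by
    intro e he
    apply hB.nons two_ne_zero (hinj.ne hab) (hinj.ne hac) (hinj.ne hbc)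
    rcases he with rfl | rfl | rfl <;> simp
  -- the torsion points
  let T : Fin 4 → Pt (EAB m b) QB := ![0, .some (algebraMap ℚ QB 0) 0 (hn 0 (Or.inl rfl)),
    .some (algebraMap ℚ QB m) 0 (hn m (Or.inr (Or.inl rfl))),
    .some (algebraMap ℚ QB b) 0 (hn b (Or.inr (Or.inr rfl)))]
  have hTinj : ∀ i j, i ≠ j → T i ≠ T j := by
    have n1 : ∀ (e e' : ℚ) (hne : e ≠ e') h1 h2, (Affine.Point.some (algebraMap ℚ QB e) 0 h1 :
        Pt (EAB m b) QB) ≠ .some (algebraMap ℚ QB e') 0 h2 := by
      intro e e' hne h1 h2 h3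
      rw [Affine.Point.some.injEq] at h3
      exact hne (hinj h3.1)
    intro i j hij
    fin_cases i <;> fin_cases j
    · exact absurd rfl hij
    · exact (Affine.Point.some_ne_zero _).symm
    · exact (Affine.Point.some_ne_zero _).symm
    · exact (Affine.Point.some_ne_zero _).symm
    · exact Affine.Point.some_ne_zero _
    · exact absurd rfl hij
    · exact n1 _ _ hab _ _
    · exact n1 _ _ hac _ _
    · exact Affine.Point.some_ne_zero _
    · exact n1 _ _ hab.symm _ _
    · exact absurd rfl hij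
    · exact n1 _ _ hbc _ _
    · exact Affine.Point.some_ne_zero _
    · exact n1 _ _ hac.symm _ _
    · exact n1 _ _ hbc.symm _ _
    · exact absurd rfl hij
  have hTT : ∀ i, T i + T i = 0 := by
    intro i
    fin_cases i
    · exact add_zero _
    · exact (hB.add_self two_ne_zero _).2 rfl
    · exact (hB.add_self two_ne_zero _).2 rfl
    · exact (hB.add_self two_ne_zero _).2 rfl
  have hdiv : ∀ i, ∃ Q : Pt (EAB m b) QB, T i = Q + Q := fun i =>
    hB.div two_ne_zero (hinj.ne hab) (hinj.ne hac) (hinj.ne hbc) (T i)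
  choose Q hQ using hdiv
  refine ⟨fun i => cobOf (EAB m b) (Q i), ?_, fun i => ⟨cobOf_mem_selHom h (Q i) ?_,
    cobOf_isCob _ _⟩⟩
  · intro i j hij
    by_contra hne
    have hfix : ∀ σ : QB ≃ₐ[ℚ] QB, act (EAB m b) σ.toAlgHom (Q i - Q j) = Q i - Q j := by
      intro σ
      have h1 : act (EAB m b) σ.toAlgHom (Q i) - Q i = act (EAB m b) σ.toAlgHom (Q j) - Q j :=
        congrFun hij σ
      rw [map_sub]
      have h2 := sub_eq_sub_iff_add_eq_add.1 h1
      rw [sub_eq_sub_iff_add_eq_add, h2]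
      abel
    have h2 : (Q i - Q j) + (Q i - Q j) = T i - T j := by
      rw [hQ i, hQ j]
      abel
    have h3 : T i - T j ≠ 0 := sub_ne_zero.2 (hTinj i j hne)
    have h4 : (T i - T j) + (T i - T j) = 0 := by
      have : (T i - T j) + (T i - T j) = (T i + T i) - (T j + T j) := by abel
      rw [this, hTT, hTT, sub_zero]
    rcases hB.tors two_ne_zero h4 with h5 | ⟨hn5, h5⟩ | ⟨hn5, h5⟩ | ⟨hn5, h5⟩
    · exact h3 h5
    · -- `(0, 0)`
      rw [h5] at h2
      have h6 := fixed_half h.swap 0 _ hfix hn5 h2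
      exact not_sq_neg (by linarith) h6
    · have h6 := fixed_half h.rot.rot m _ hfix (by rw [h5] at h2; exact hn5) (by rw [h5] at h2; exact h2)
      exact not_sq_neg (by linarith) h6
    · have h6 := fixed_half h b _ hfix (by rw [h5] at h2; exact hn5) (by rw [h5] at h2; exact h2)
      rw [sub_zero] at h6
      exact not_sq_three b hb h6
  · rw [← hQ]
    exact hTT i

end Pool.Agent.L0h55.RZ
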