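import Pool.Agent.L0h94.RZ.DefsS
import Pool.Agent.L0h55.RZ.T4core

set_option autoImplicit false

namespace Pool.Agent.L0h55.RZ

open Pool.Agent.L0h94.RZ

/-- (S5) -/
theorem t4 : S_T4 := by
  intro o u b w hG
  obtain ⟨hb, -, hu, hw⟩ := hG
  refine t4gen (mo o u w) b ?_ ?_ ?_
  · cases o <;> simp only [mo, Bool.false_eq_true, if_false, if_true] <;> omega
  · cases o <;> simp only [mo, Bool.false_eq_true, if_false, if_true] <;> omega
  · omega

end Pool.Agent.L0h55.RZ
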